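import Pool.Agent.Lib.MP_03ceb7_al.Main

/-!
# Direct finiteness for groups with approximate finite actions whose stabilisers are locally `p`-indicable

Let `p` be a prime and suppose that the group `G` acts approximately on finite sets in such a way that the
stabiliser of almost every point looks like a locally `p`-indicable subgroup of `G` (sofic groups: the
trivial subgroup). Then `A[G]` is directly finite for every finite dimensional algebra `A` over a field of
characteristic `p`.
-/

namespace Pool.Agent.Results.MP_03ceb7_al.IndicableStabilisers

open Pool.Agent.MP_03ceb7_al

theorem result {p : ℕ} [Fact p.Prime] {G : Type*} [Group G] (hG : Approximable p G)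
    {k : Type*} [Field k] [CharP k p] {A : Type*} [Ring A] [Algebra k A] [Module.Finite k A]
    (x y : MonoidAlgebra A G) (hxy : x * y = 1) : y * x = 1 :=
  directlyFinite (k := k) hG hxy

end Pool.Agent.Results.MP_03ceb7_al.IndicableStabilisers
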