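import Pool.Agent.Lib.MP_03ceb7_al.LS.Cor2
import Pool.Agent.Lib.MP_03ceb7_al.LS.Cor4
import Pool.Agent.Lib.MP_03ceb7_al.LS.Cor5

/-!
# Direct finiteness in all characteristics for groups with arithmetic approximations

Let `K` be a field. The algebra `A[G]` is directly finite for every finite dimensional `K`-algebra `A` in
each of the following cases.
(1) `G` is hyperlinear (the definition of the problem) through finite unitary groups with traces in number
fields of bounded degree (`DegreeHyperlinear`; permutation matrices: sofic groups), or is approximated in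
the rank metric by finite groups of complex matrices (`FiniteLinearSofic`).
(2) `G` is hyperlinear through unitary matrices whose entries, multiplied by a fixed `D`, lie in a discrete
subring of `ℂ`, and `D` is invertible in `K`.
(3) `K` has characteristic `p > 0`, and `G` has a normal locally `p`-indicable subgroup `N` such that `G ⧸ N`
is approximated in the normalised rank metric by matrices over commutative domains (of any characteristic)
in which `p` is not invertible.
-/

universe u v w

namespace Pool.Agent.Results.MP_03ceb7_al.IntegrallyLinearSofic

open Pool.Agent.MP_03ceb7_al Pool.Agent.MP_03ceb7_al.LS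

theorem result :
    ∀ (G : Type u) [Group G] (K : Type v) [Field K],
      (∃ d : ℕ, DegreeHyperlinear d G) ∨ FiniteLinearSofic G ∨
        (∃ D : ℕ, (D : K) ≠ 0 ∧ DiscretelyHyperlinear D G) ∨
        (∃ (p : ℕ) (_ : p.Prime) (_ : CharP K p) (N : Subgroup G) (_ : N.Normal),
          LocallyIndicable p N ∧ IntegrallyLinearSofic p (G ⧸ N)) →
      ∀ (A : Type w) [Ring A] [Algebra K A] [Module.Finite K A] (x y : MonoidAlgebra A G),
        x * y = 1 → y * x = 1 := by
  intro G _ K _ h A _ _ _ x y hxy
  rcases h with ⟨d, hG⟩ | hG | ⟨D, hDK, hG⟩ | ⟨p, hp, hchar, N, hN, hind, hG⟩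
  · exact main2 (K := K) hG.finite x y hxy
  · exact main2 (K := K) hG x y hxy
  · have hD : 0 < D := by
      rcases Nat.eq_zero_or_pos D with h | h
      · rw [h, Nat.cast_zero] at hDK
        exact absurd rfl hDK
      · exact h
    obtain ⟨p, hp⟩ := CharP.exists K
    rcases CharP.char_is_prime_or_zero K p with h | h
    · have : Fact p.Prime := ⟨h⟩
      exact main1 (K := K) (hG.integrally hD p h fun h2 => hDK ((CharP.cast_eq_zero_iff K p D).2 h2)) x y hxy
    · subst h
      have : CharZero K := CharP.charP_to_charZero K
      exact main0 (L := ℂ) (K := K) (hG.linear hD) x y hxy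
  · have : Fact p.Prime := ⟨hp⟩
    exact main3 (K := K) N hind hG x y hxy

end Pool.Agent.Results.MP_03ceb7_al.IntegrallyLinearSofic
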