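import Pool.Agent.Lib.MP_03ceb7_al.Mono

/-!
# Direct finiteness for groups which are hyperlinear through monomial unitary matrices

Let `G` be a group which satisfies the definition of a hyperlinear group with monomial unitary matrices
(permutation matrices times diagonal matrices). Let `p` be a prime, and suppose that the identity is the only
element of finite order prime to `p` all of whose conjugates commute with each other; every torsion free
group has this property. Then `A[G]` is directly finite for every finite dimensional algebra `A` over a
field of characteristic `p`.
-/

namespace Pool.Agent.Results.MP_03ceb7_al.MonomialUnitaries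

open Pool.Agent.MP_03ceb7_al

theorem result {p : ℕ} [Fact p.Prime] {G : Type*} [Group G] (hG : MonomiallyHyperlinear G)
    (ht : ∀ g : G, (∀ a b : G, Commute (a * g * a⁻¹) (b * g * b⁻¹)) → ∀ m : ℕ, ¬ p ∣ m → g ^ m = 1 →
      g = 1)
    {k : Type*} [Field k] [CharP k p] {A : Type*} [Ring A] [Algebra k A] [Module.Finite k A]
    (x y : MonoidAlgebra A G) (hxy : x * y = 1) : y * x = 1 :=
  directlyFinite (k := k) (approximable_of_monomial hG ht) hxy

end Pool.Agent.Results.MP_03ceb7_al.MonomialUnitaries
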